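import Pool.Agent.H77.WC.Stm

namespace Pool.Agent.H59.WC

open Pool.Agent.H77.WC
open Pool.Agent.Results.MP_d5a689_co.InfinitelyManyTwo

/-- values of the transposition -/
theorem core (k p c : ℕ) (hp : p.Prime) (hc : 1 ≤ c) (h1 : p ^ c ≤ k) (h2 : k < p ^ c + p ^ (c - 1))
    (f : ℕ → ℕ) (hfa : f (p ^ (c - 1)) = p ^ c) (hfb : f (p ^ c) = p ^ (c - 1))
    (hf : ∀ x, x ≠ p ^ (c - 1) → x ≠ p ^ c → f x = x)
    (m I J : ℕ) (hm : 1 ≤ m) (hI : 1 ≤ I) (hIk : I ≤ k) (hJ : 1 ≤ J) (hJk : J ≤ k)
    (hd : m ∣ f I) (hij : (m : ℤ) ∣ (I : ℤ) - (J : ℤ)) : m ∣ f J := by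
  obtain ⟨d, rfl⟩ : ∃ d, c = d + 1 := ⟨c - 1, by omega⟩
  simp only [Nat.add_sub_cancel] at *
  set a := p ^ d with ha
  set b := p ^ (d + 1) with hb
  have hab : a ∣ b := pow_dvd_pow p (Nat.le_succ d)
  have ha0 : 0 < a := pow_pos hp.pos d
  have hlt : a < b := Nat.pow_lt_pow_right hp.one_lt (Nat.lt_succ_self d)
  have hmb : ∀ x : ℕ, x ∣ b → x ∣ a ∨ x = b := by
    intro x hx
    obtain ⟨e, he, rfl⟩ := (Nat.dvd_prime_pow hp).mp hx
    rcases Nat.lt_or_ge d e with h | h
    · right
      have : e = d + 1 := by omega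
      rw [this]
    · left
      exact pow_dvd_pow p h
  -- transport of divisibility
  have tr : m ∣ I → m ∣ J := by
    intro h
    have h3 : (m : ℤ) ∣ (I : ℤ) := Int.natCast_dvd_natCast.mpr h
    have h4 : (m : ℤ) ∣ (J : ℤ) := by
      have := dvd_sub h3 hij
      simpa using this
    exact Int.natCast_dvd_natCast.mp h4
  -- conclusion when `m ∣ a` and `m ∣ J`
  have fin : m ∣ a → m ∣ J → m ∣ f J := by
    intro h3 h4
    by_cases hJa : J = a
    · rw [hJa, hfa]; exact h3.trans hab
    · by_cases hJb : J = b
      · rw [hJb, hfb]; exact h3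
      · rw [hf J hJa hJb]; exact h4
  by_cases hIa : I = a
  · rw [hIa, hfa] at hd
    rcases hmb m hd with h | h
    · exact fin h (tr (hIa ▸ h))
    · subst h
      have hJa : J = a := by
        rw [hIa] at hij
        obtain ⟨z, hz⟩ := hij
        have h5 : z = 0 := by
          have h6 : (a : ℤ) - J < b := by
            have : (a : ℤ) < b := by exact_mod_cast hlt
            have : (0 : ℤ) < J := by exact_mod_cast hJ
            linarith
          have h7 : -(b : ℤ) < (a : ℤ) - J := by
            have : (J : ℤ) < (b : ℤ) + a := by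
              have : J < b + a := lt_of_le_of_lt hJk h2
              exact_mod_cast this
            linarith
          rw [hz] at h6 h7
          have hmp : (0 : ℤ) < b := by exact_mod_cast hm
          have h8 : z < 1 := by
            by_contra hcon
            push Not at hcon
            nlinarith
          have h9 : -1 < z := by
            by_contra hcon
            push Not at hcon
            nlinarith
          omega
        rw [h5, mul_zero] at hz
        omega
      rw [hJa, hfa]
  · by_cases hIb : I = b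
    · rw [hIb, hfb] at hd
      exact fin hd (tr (hIb ▸ hd.trans hab))
    · rw [hf I hIa hIb] at hd
      have h4 := tr hd
      by_cases hJa : J = a
      · rw [hJa, hfa]
        rw [hJa] at h4
        exact h4.trans hab
      · by_cases hJb : J = b
        · rw [hJb, hfb]
          rw [hJb] at h4
          rcases hmb m h4 with h | h
          · exact h
          · exfalso
            subst h
            obtain ⟨z, hz⟩ := hd
            have hz1 : z ≠ 0 := by
              rintro rfl
              omega
            have hz2 : z < 2 := by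
              by_contra hcon
              push Not at hcon
              have : b * 2 ≤ b * z := Nat.mul_le_mul_left b hcon
              omega
            have hz3 : z = 1 := by omega
            rw [hz3, mul_one] at hz
            exact hIb hz
        · rw [hf J hJa hJb]
          exact h4

theorem swp : S_SWP := by
  rintro k p hk hp ⟨c, hc, h1, h2⟩
  have hca : 0 < p ^ (c - 1) := pow_pos hp.pos _
  have hlt : p ^ (c - 1) < p ^ c := Nat.pow_lt_pow_right hp.one_lt (by omega)
  set A : Fin k := ⟨p ^ (c - 1) - 1, by omega⟩ with hA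
  set B : Fin k := ⟨p ^ c - 1, by omega⟩ with hB
  have hAB : A ≠ B := by
    intro h
    have := congrArg Fin.val h
    simp only [hA, hB] at this
    omega
  set σ : Equiv.Perm (Fin k) := Equiv.swap A B with hσ
  have hwσ : WeaklyConsecutive k σ := by
    intro m hm _ i j hd hij
    set f : ℕ → ℕ := fun x => if x = p ^ (c - 1) then p ^ c else if x = p ^ c then p ^ (c - 1) else x
      with hf
    have hval : ∀ x : Fin k, (σ x : ℕ) + 1 = f ((x : ℕ) + 1) := by
      intro x
      by_cases hxA : x = A
      · rw [hxA, hσ, Equiv.swap_apply_left]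
        simp only [hf, hA, hB]
        rw [if_pos (by omega)]
        omega
      · by_cases hxB : x = B
        · rw [hxB, hσ, Equiv.swap_apply_right]
          simp only [hf, hA, hB]
          rw [if_neg (by omega), if_pos (by omega)]
          omega
        · rw [hσ, Equiv.swap_apply_of_ne_of_ne hxA hxB]
          simp only [hf]
          rw [if_neg, if_neg]
          · intro h
            apply hxB
            apply Fin.ext
            simp only [hB]
            omega
          · intro h
            apply hxA
            apply Fin.ext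
            simp only [hA]
            omega
    rw [hval] at hd ⊢
    have hi := i.isLt
    have hj := j.isLt
    refine core k p c hp hc h1 h2 f ?_ ?_ ?_ m _ _ hm (by omega) (by omega) (by omega) (by omega) hd ?_
    · simp only [hf]
      exact if_pos trivial
    · simp only [hf]
      rw [if_neg (by omega)]
      exact if_pos trivial
    · intro x hx1 hx2
      simp only [hf]
      rw [if_neg hx1, if_neg hx2]
    · have e : (((i : ℕ) + 1 : ℕ) : ℤ) - (((j : ℕ) + 1 : ℕ) : ℤ) = ((i : ℕ) : ℤ) - ((j : ℕ) : ℤ) := by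
        push_cast
        ring
      rw [e]
      exact hij
  have hw1 : WeaklyConsecutive k 1 := by
    intro m _ _ i j hd hij
    rw [Equiv.Perm.one_apply] at hd ⊢
    have h3 : (m : ℤ) ∣ (((i : ℕ) + 1 : ℕ) : ℤ) := Int.natCast_dvd_natCast.mpr hd
    have h4 : (m : ℤ) ∣ (((j : ℕ) + 1 : ℕ) : ℤ) := by
      have := dvd_sub h3 hij
      have e : (((i : ℕ) + 1 : ℕ) : ℤ) - (((i : ℕ) : ℤ) - ((j : ℕ) : ℤ)) = (((j : ℕ) + 1 : ℕ) : ℤ) := by
        push_cast
        ring
      rwa [e] at this
    exact Int.natCast_dvd_natCast.mp h4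
  have hwr : WeaklyConsecutive k Fin.revPerm := by
    intro m _ _ i j hd hij
    have hi := i.isLt
    have hj := j.isLt
    have hri : ((Fin.revPerm i : Fin k) : ℕ) + 1 = k - i := by
      rw [Fin.revPerm_apply, Fin.val_rev]
      omega
    have hrj : ((Fin.revPerm j : Fin k) : ℕ) + 1 = k - j := by
      rw [Fin.revPerm_apply, Fin.val_rev]
      omega
    rw [hri] at hd
    rw [hrj]
    have h3 : (m : ℤ) ∣ ((k - i : ℕ) : ℤ) := Int.natCast_dvd_natCast.mpr hd
    have h4 : (m : ℤ) ∣ ((k - j : ℕ) : ℤ) := by
      have := dvd_add h3 hij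
      have e : ((k - i : ℕ) : ℤ) + (((i : ℕ) : ℤ) - ((j : ℕ) : ℤ)) = ((k - j : ℕ) : ℤ) := by
        omega
      rwa [e] at this
    exact Int.natCast_dvd_natCast.mp h4
  -- the three permutations are different
  have hA' : σ A = B := by rw [hσ, Equiv.swap_apply_left]
  have d1 : (1 : Equiv.Perm (Fin k)) ≠ σ := by
    intro h
    rw [← h, Equiv.Perm.one_apply] at hA'
    exact hAB hA'
  have hrev : ∀ x : Fin k, 2 * (x : ℕ) + 1 ≠ k → (Fin.revPerm x : Fin k) ≠ x := by
    intro x hx h
    have h3 := congrArg Fin.val h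
    rw [Fin.revPerm_apply, Fin.val_rev] at h3
    have := x.isLt
    omega
  have d2 : (1 : Equiv.Perm (Fin k)) ≠ Fin.revPerm := by
    intro h
    have h3 := hrev ⟨0, by omega⟩ (by simp only; omega)
    rw [← h, Equiv.Perm.one_apply] at h3
    exact h3 rfl
  have d3 : (Fin.revPerm : Equiv.Perm (Fin k)) ≠ σ := by
    intro h
    have key : ∀ x : Fin k, 2 * (x : ℕ) + 1 ≠ k → x = A ∨ x = B := by
      intro x hx
      by_contra hcon
      push Not at hcon
      have h3 := hrev x hx
      rw [h, hσ, Equiv.swap_apply_of_ne_of_ne hcon.1 hcon.2] at h3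
      exact h3 rfl
    have k0 := key ⟨0, by omega⟩ (by simp only; omega)
    have k1 := key ⟨1, by omega⟩ (by simp only; omega)
    have k2 := key ⟨k - 1, by omega⟩ (by simp only; omega)
    have v0 : 0 = (A : ℕ) ∨ 0 = (B : ℕ) := k0.imp (congrArg Fin.val) (congrArg Fin.val)
    have v1 : 1 = (A : ℕ) ∨ 1 = (B : ℕ) := k1.imp (congrArg Fin.val) (congrArg Fin.val)
    have v2 : k - 1 = (A : ℕ) ∨ k - 1 = (B : ℕ) := k2.imp (congrArg Fin.val) (congrArg Fin.val)
    omega
  intro hN
  have hsub : (({1, Fin.revPerm, σ} : Finset (Equiv.Perm (Fin k))) : Set (Equiv.Perm (Fin k))) ⊆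
      {τ : Equiv.Perm (Fin k) | WeaklyConsecutive k τ} := by
    intro τ hτ
    simp only [Finset.coe_insert, Finset.coe_singleton, Set.mem_insert_iff,
      Set.mem_singleton_iff] at hτ
    rcases hτ with rfl | rfl | rfl
    · exact hw1
    · exact hwr
    · exact hwσ
  have hle := Set.ncard_le_ncard hsub (Set.toFinite _)
  rw [Set.ncard_coe_finset] at hle
  have h3 : ({1, Fin.revPerm, σ} : Finset (Equiv.Perm (Fin k))).card = 3 :=
    Finset.card_eq_three.mpr ⟨1, Fin.revPerm, σ, d2, d1, d3, rfl⟩
  rw [h3] at hle
  unfold N at hN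
  omega

end Pool.Agent.H59.WC
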